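import Mathlib

/-!
# The set of turbulent points of a Polish `G`-space is always a `G_δ` set

`LocalGraph U V x y` is the `(U,V)`-local graph, `LocalOrbit x U V` the local orbit
`O(x,U,V)`, `IsTurbulent G x` says that `x` is a turbulent point.
-/

open Set Topology

namespace Pool.Agent.Results.MP_6b7ad2_lc.TurbulentGdelta

variable {G X : Type*}

/-- The `(U,V)`-local graph: `x R_{U,V} y` iff `x, y ∈ U` and `g • x = y` for some `g ∈ V`. -/
def LocalGraph [Group G] [MulAction G X] (U : Set X) (V : Set G) (x y : X) : Prop :=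
  x ∈ U ∧ y ∈ U ∧ ∃ g ∈ V, g • x = y

/-- The local orbit `O(x,U,V)`: the points reachable from `x` by a finite path in the
`(U,V)`-local graph (for `x ∈ U` and `V` a symmetric neighbourhood of `1`, the graph is reflexive
and symmetric on `U`, so this is the connected component of `x`). -/
def LocalOrbit [Group G] [MulAction G X] (x : X) (U : Set X) (V : Set G) : Set X :=
  {y | Relation.ReflTransGen (LocalGraph U V) x y}

/-- `x` is turbulent iff for every open `U ∋ x` and every symmetric open neighbourhood `V` of `1`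
the closure of the local orbit `O(x,U,V)` has nonempty interior. -/
def IsTurbulent (G : Type*) {X : Type*} [Group G] [TopologicalSpace G] [TopologicalSpace X]
    [MulAction G X] (x : X) : Prop :=
  ∀ U : Set X, IsOpen U → x ∈ U → ∀ V : Set G, IsOpen V → (1 : G) ∈ V → V⁻¹ = V →
    (interior (closure (LocalOrbit x U V))).Nonempty

section basic

variable [Group G] [MulAction G X]

theorem localOrbit_self (x : X) (U : Set X) (V : Set G) : x ∈ LocalOrbit x U V :=
  Relation.ReflTransGen.refl

theorem localOrbit_subset {x : X} {U : Set X} {V : Set G} (hx : x ∈ U) :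
    LocalOrbit x U V ⊆ U := by
  intro y hy
  induction hy with
  | refl => exact hx
  | tail _ h _ => exact h.2.1

theorem localOrbit_mono {x : X} {U U' : Set X} {V V' : Set G} (hU : U ⊆ U') (hV : V ⊆ V') :
    LocalOrbit x U V ⊆ LocalOrbit x U' V' := by
  intro y hy
  induction hy with
  | refl => exact Relation.ReflTransGen.refl
  | tail _ h ih =>
    obtain ⟨ha, hb, g, hg, rfl⟩ := h
    exact Relation.ReflTransGen.tail ih ⟨hU ha, hU hb, g, hV hg, rfl⟩

theorem localGraph_symm {U : Set X} {V : Set G} (hV : V⁻¹ = V) {a b : X}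
    (h : LocalGraph U V a b) : LocalGraph U V b a := by
  obtain ⟨ha, hb, g, hg, rfl⟩ := h
  refine ⟨hb, ha, g⁻¹, ?_, by simp⟩
  rw [← hV]
  simpa using hg

theorem localOrbit_symm {U : Set X} {V : Set G} (hV : V⁻¹ = V) {x y : X}
    (h : y ∈ LocalOrbit x U V) : x ∈ LocalOrbit y U V := by
  induction h with
  | refl => exact Relation.ReflTransGen.refl
  | tail _ h ih => exact Relation.ReflTransGen.head (localGraph_symm hV h) ih

theorem localOrbit_eq {U : Set X} {V : Set G} (hV : V⁻¹ = V) {x y : X}
    (h : y ∈ LocalOrbit x U V) : LocalOrbit y U V = LocalOrbit x U V := by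
  apply Set.Subset.antisymm
  · intro z hz
    exact Relation.ReflTransGen.trans h hz
  · intro z hz
    exact Relation.ReflTransGen.trans (localOrbit_symm hV h) hz

end basic

section top

variable [Group G] [TopologicalSpace X] [MulAction G X] [ContinuousConstSMul G X]

/-- The open set `Int cl O(x,U,V)` is closed under steps of the local graph. -/
theorem interior_step {x : X} {U : Set X} {V : Set G} (hU : IsOpen U) (z : X)
    (hz : z ∈ interior (closure (LocalOrbit x U V))) (g : G) (hg : g ∈ V)
    (hzU : z ∈ U) (hgz : g • z ∈ U) :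
    g • z ∈ interior (closure (LocalOrbit x U V)) := by
  set W := interior (closure (LocalOrbit x U V)) with hW
  -- the open set `N = W ∩ U ∩ g⁻¹ U`
  have hNopen : IsOpen (W ∩ U ∩ (fun y : X => g • y) ⁻¹' U) :=
    (isOpen_interior.inter hU).inter (hU.preimage (continuous_const_smul g))
  have hgN : IsOpen ((fun y : X => g • y) '' (W ∩ U ∩ (fun y : X => g • y) ⁻¹' U)) :=
    (isOpenMap_smul g) _ hNopen
  rw [hW]
  refine mem_interior.2 ⟨_, ?_, hgN, ⟨z, ⟨⟨hz, hzU⟩, hgz⟩, rfl⟩⟩
  rintro _ ⟨q, hq, rfl⟩
  rw [mem_closure_iff]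
  intro o ho hqo
  have hq' : q ∈ closure (LocalOrbit x U V) := interior_subset hq.1.1
  rw [mem_closure_iff] at hq'
  obtain ⟨p, hp, hpO⟩ := hq' ((fun y : X => g • y) ⁻¹' o ∩
    (W ∩ U ∩ (fun y : X => g • y) ⁻¹' U))
    ((ho.preimage (continuous_const_smul g)).inter hNopen) ⟨hqo, hq⟩
  exact ⟨g • p, hp.1, Relation.ReflTransGen.tail hpO ⟨hp.2.1.2, hp.2.2, g, hg, rfl⟩⟩

/-- `Int cl O(x,U,V)` contains the whole local orbit of each of its points. -/
theorem interior_saturated {x : X} {U : Set X} {V : Set G} (hU : IsOpen U) {z y : X}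
    (hz : z ∈ interior (closure (LocalOrbit x U V))) (hy : y ∈ LocalOrbit z U V) :
    y ∈ interior (closure (LocalOrbit x U V)) := by
  induction hy with
  | refl => exact hz
  | tail h1 h2 ih =>
    obtain ⟨ha, hb, g, hg, rfl⟩ := h2
    exact interior_step hU _ ih g hg ha hb

/-- If `Int cl O(y,U,V)` meets `Int cl O(x,U,V)` then it is contained in it. -/
theorem interior_subset_of_inter {x y : X} {U : Set X} {V : Set G} (hU : IsOpen U)
    (hV : V⁻¹ = V)
    (h : (interior (closure (LocalOrbit x U V)) ∩
      interior (closure (LocalOrbit y U V))).Nonempty) :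
    interior (closure (LocalOrbit y U V)) ⊆ interior (closure (LocalOrbit x U V)) := by
  obtain ⟨z, hzx, hzy⟩ := h
  have hz' : z ∈ closure (LocalOrbit y U V) := interior_subset hzy
  rw [mem_closure_iff] at hz'
  obtain ⟨p, hp, hpO⟩ := hz' _ isOpen_interior hzx
  have hsub : LocalOrbit y U V ⊆ interior (closure (LocalOrbit x U V)) := by
    rw [← localOrbit_eq hV hpO]
    intro w hw
    exact interior_saturated hU hp hw
  apply interior_maximal _ isOpen_interior
  refine interior_subset.trans ?_
  calc closure (LocalOrbit y U V) ⊆ closure (closure (LocalOrbit x U V)) :=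
        closure_mono (hsub.trans interior_subset)
    _ = closure (LocalOrbit x U V) := closure_closure

/-- If `Int cl O(x,U,V)` is nonempty then it contains `x`. -/
theorem mem_interior_of_nonempty {x : X} {U : Set X} {V : Set G} (hU : IsOpen U)
    (hV : V⁻¹ = V) (h : (interior (closure (LocalOrbit x U V))).Nonempty) :
    x ∈ interior (closure (LocalOrbit x U V)) := by
  obtain ⟨z, hz⟩ := h
  have hz' : z ∈ closure (LocalOrbit x U V) := interior_subset hz
  rw [mem_closure_iff] at hz'
  obtain ⟨p, hp, hpO⟩ := hz' _ isOpen_interior hz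
  exact interior_saturated hU hp (localOrbit_symm hV hpO)

/-- The `(U,V)`-saturation of an open set is open. -/
theorem isOpen_saturation {U : Set X} (V : Set G) (hU : IsOpen U) {b : Set X} (hb : IsOpen b) :
    IsOpen {x : X | x ∈ U ∧ (LocalOrbit x U V ∩ b).Nonempty} := by
  rw [isOpen_iff_mem_nhds]
  rintro x ⟨hx, y, hxy, hyb⟩
  induction hxy using Relation.ReflTransGen.head_induction_on with
  | refl =>
    refine Filter.mem_of_superset ((hU.inter hb).mem_nhds ⟨hx, hyb⟩) ?_
    rintro z ⟨hzU, hzb⟩
    exact ⟨hzU, z, localOrbit_self _ _ _, hzb⟩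
  | head h1 h2 ih =>
    obtain ⟨ha, hc, g, hg, rfl⟩ := h1
    have h3 := ih hc
    have h4 := (continuous_const_smul g).continuousAt.preimage_mem_nhds h3
    filter_upwards [h4, hU.mem_nhds ha] with z hz hzU
    obtain ⟨hgz, w, hw, hwb⟩ := hz
    exact ⟨hzU, w, Relation.ReflTransGen.head ⟨hzU, hgz, g, hg, rfl⟩ hw, hwb⟩

/-- For fixed open `U` and symmetric `V` the set of `x ∈ U` for which the closure of
`O(x,U,V)` has nonempty interior is a `G_δ` set. -/
theorem isGdelta_piece [SecondCountableTopology X] {U : Set X} {V : Set G} (hU : IsOpen U)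
    (hV : V⁻¹ = V) :
    IsGδ {x : X | x ∈ U ∧ (interior (closure (LocalOrbit x U V))).Nonempty} := by
  set A : Set X := {x : X | x ∈ U ∧ (interior (closure (LocalOrbit x U V))).Nonempty} with hA
  -- the union of all `Int cl O(y,U,V)`, intersected with `U`
  set R : Set X := U ∩ ⋃ y ∈ A, interior (closure (LocalOrbit y U V)) with hR
  have hRopen : IsOpen R := hU.inter (isOpen_biUnion fun _ _ => isOpen_interior)
  let E : Set X → Set X := fun b =>
    {x : X | x ∈ U ∧ (LocalOrbit x U V ∩ b).Nonempty} ∪
      ⋃ y ∈ {y : X | y ∈ A ∧ interior (closure (LocalOrbit y U V)) ∩ b = ∅},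
        interior (closure (LocalOrbit y U V))
  have hcount := TopologicalSpace.countable_countableBasis X
  have hbasis := TopologicalSpace.isBasis_countableBasis X
  have key : A = R ∩ ⋂ b ∈ TopologicalSpace.countableBasis X, E b := by
    apply Set.Subset.antisymm
    · intro x hx
      have hxW := mem_interior_of_nonempty hU hV hx.2
      refine ⟨⟨hx.1, Set.mem_biUnion hx hxW⟩, ?_⟩
      refine Set.mem_iInter₂.2 fun b hb => ?_
      by_cases hne : interior (closure (LocalOrbit x U V)) ∩ b = ∅
      · exact Or.inr (Set.mem_biUnion (show x ∈ _ from ⟨hx, hne⟩) hxW)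
      · left
        refine ⟨hx.1, ?_⟩
        obtain ⟨z, hzW, hzb⟩ := Set.nonempty_iff_ne_empty.2 hne
        have hz' : z ∈ closure (LocalOrbit x U V) := interior_subset hzW
        rw [mem_closure_iff] at hz'
        obtain ⟨p, hpb, hpO⟩ := hz' b (hbasis.isOpen hb) hzb
        exact ⟨p, hpO, hpb⟩
    · rintro x ⟨⟨hxU, hxR⟩, hxE⟩
      obtain ⟨y, hyA, hxy⟩ := Set.mem_iUnion₂.1 hxR
      refine ⟨hxU, ⟨x, ?_⟩⟩
      refine mem_interior.2 ⟨_, ?_, isOpen_interior, hxy⟩
      intro z hz
      rw [hbasis.mem_closure_iff]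
      intro b hb hzb
      rcases Set.mem_iInter₂.1 hxE b hb with h | h
      · obtain ⟨_, p, hpO, hpb⟩ := h
        exact ⟨p, hpb, hpO⟩
      · exfalso
        obtain ⟨y', ⟨hy'A, hy'b⟩, hxy'⟩ := Set.mem_iUnion₂.1 h
        have hsub := interior_subset_of_inter hU hV (x := y') (y := y) ⟨x, hxy', hxy⟩
        have : z ∈ interior (closure (LocalOrbit y' U V)) ∩ b := ⟨hsub hz, hzb⟩
        rw [hy'b] at this
        exact this
  rw [key]
  refine hRopen.isGδ.inter (IsGδ.biInter hcount fun b hb => IsOpen.isGδ ?_)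
  exact (isOpen_saturation V hU (hbasis.isOpen hb)).union
    (isOpen_biUnion fun _ _ => isOpen_interior)

end top

/-- **The set of turbulent points of a Polish `G`-space is `G_δ`.** -/
theorem result (G : Type*) [Group G] [TopologicalSpace G] [IsTopologicalGroup G] [PolishSpace G]
    (X : Type*) [TopologicalSpace X] [PolishSpace X] [MulAction G X] [ContinuousSMul G X] :
    IsGδ {x : X | IsTurbulent G x} := by
  obtain ⟨u, hu⟩ := (𝓝 (1 : G)).exists_antitone_basis
  let V : ℕ → Set G := fun n => interior (u n) ∩ (interior (u n))⁻¹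
  have hVopen : ∀ n, IsOpen (V n) := fun n => isOpen_interior.inter isOpen_interior.inv
  have h1 : ∀ n, (1 : G) ∈ interior (u n) := fun n =>
    mem_interior_iff_mem_nhds.2 (hu.1.mem_of_mem trivial)
  have hV1 : ∀ n, (1 : G) ∈ V n := fun n => ⟨h1 n, by simpa using h1 n⟩
  have hVsymm : ∀ n, (V n)⁻¹ = V n := fun n => by
    simp only [V, Set.inter_inv, inv_inv]
    exact Set.inter_comm _ _
  have hcount := TopologicalSpace.countable_countableBasis X
  have hbasis := TopologicalSpace.isBasis_countableBasis X
  have key : {x : X | IsTurbulent G x} = ⋂ U ∈ TopologicalSpace.countableBasis X, ⋂ n : ℕ,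
      (Uᶜ ∪ {x : X | x ∈ U ∧ (interior (closure (LocalOrbit x U (V n)))).Nonempty}) := by
    ext x
    simp only [Set.mem_ofPred_eq, Set.mem_iInter, Set.mem_union, Set.mem_compl_iff]
    constructor
    · intro h U hU n
      by_cases hx : x ∈ U
      · exact Or.inr ⟨hx, h U (hbasis.isOpen hU) hx (V n) (hVopen n) (hV1 n) (hVsymm n)⟩
      · exact Or.inl hx
    · intro h U hU hx V' hV' h1V' _
      obtain ⟨b, hb, hxb, hbU⟩ := hbasis.exists_subset_of_mem_open hx hU
      obtain ⟨n, -, hn⟩ := hu.1.mem_iff.1 (hV'.mem_nhds h1V')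
      rcases h b hb n with h' | h'
      · exact absurd hxb h'
      · refine h'.2.mono (interior_mono (closure_mono (localOrbit_mono hbU ?_)))
        exact Set.inter_subset_left.trans (interior_subset.trans hn)
  rw [key]
  let _ := TopologicalSpace.upgradeIsCompletelyMetrizable X
  refine IsGδ.biInter hcount fun U hU => IsGδ.iInter fun n => ?_
  exact (hbasis.isOpen hU).isClosed_compl.isGδ.union (isGdelta_piece (hbasis.isOpen hU) (hVsymm n))

end Pool.Agent.Results.MP_6b7ad2_lc.TurbulentGdelta
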